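import Pool.Agent.E8helper56.AZ.Star

set_option autoImplicit false

/-!
# Project AZ, part KT: the Lie algebra of a stable ideal
-/

namespace Pool.Agent.E8helper56.AZ

open Pool.Agent.E8helper42.AZ MvPolynomial

noncomputable section

variable {σ R S : Type} [CommRing R] [CommRing S]

/-! ### Maps applied to the coefficients -/

/-- apply an additive map to the coefficients -/
def dc (f : R →+ S) (P : MvPolynomial σ R) : MvPolynomial σ S :=
  (basisMonomials σ S).repr.symm (((basisMonomials σ R).repr P).mapRange f (map_zero f))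

theorem repr_coeff (P : MvPolynomial σ R) (m : σ →₀ ℕ) :
    (basisMonomials σ R).repr P m = coeff m P := rfl

theorem coeff_dc (f : R →+ S) (P : MvPolynomial σ R) (m : σ →₀ ℕ) :
    coeff m (dc f P) = f (coeff m P) := by
  rw [← repr_coeff, dc, LinearEquiv.apply_symm_apply, Finsupp.mapRange_apply, repr_coeff]

theorem repr_dc (f : R →+ S) (P : MvPolynomial σ R) :
    (basisMonomials σ S).repr (dc f P) =
      ((basisMonomials σ R).repr P).mapRange f (map_zero f) := by
  rw [dc, LinearEquiv.apply_symm_apply]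

theorem dc_zero (f : R →+ S) : dc f (0 : MvPolynomial σ R) = 0 := by
  ext m
  rw [coeff_dc, coeff_zero, map_zero, coeff_zero]

theorem dc_add (f : R →+ S) (P Q : MvPolynomial σ R) : dc f (P + Q) = dc f P + dc f Q := by
  ext m
  rw [coeff_add, coeff_dc, coeff_dc, coeff_dc, coeff_add, map_add]

theorem dc_C (f : R →+ S) (a : R) : dc f (C a : MvPolynomial σ R) = C (f a) := by
  classical
  ext m
  rw [coeff_dc, coeff_C, coeff_C]
  split_ifs
  · rfl
  · exact map_zero f

theorem dc_C_mul (f : R →+ S) (a : R) (P : MvPolynomial σ R) :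
    dc f (C a * P) = dc (f.comp (AddMonoidHom.mulLeft a)) P := by
  ext m
  rw [coeff_dc, coeff_dc, coeff_C_mul]
  rfl

theorem dc_X_mul (f : R →+ S) (s : σ) (P : MvPolynomial σ R) :
    dc f (X s * P) = X s * dc f P := by
  classical
  ext m
  rw [coeff_dc, coeff_X_mul', coeff_X_mul', coeff_dc]
  split_ifs
  · rfl
  · exact map_zero f

theorem dc_sum {ι : Type} (f : R →+ S) (s : Finset ι) (P : ι → MvPolynomial σ R) :
    dc f (∑ i ∈ s, P i) = ∑ i ∈ s, dc f (P i) := by
  classical
  induction s using Finset.induction_on with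
  | empty => simp [dc_zero]
  | insert a s ha ih => rw [Finset.sum_insert ha, Finset.sum_insert ha, dc_add, ih]

section der

variable [Algebra ℂ R] (θ : Derivation ℂ R R)

/-- the derivation as an additive map -/
def ad : R →+ R := θ.toLinearMap.toAddMonoidHom

theorem ad_apply (a : R) : ad θ a = θ a := rfl

theorem dc_mul (P Q : MvPolynomial σ R) :
    dc (ad θ) (P * Q) = dc (ad θ) P * Q + P * dc (ad θ) Q := by
  classical
  ext m
  rw [coeff_dc, coeff_add, coeff_mul, coeff_mul, coeff_mul, map_sum, ← Finset.sum_add_distrib]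
  refine Finset.sum_congr rfl fun x _ => ?_
  rw [coeff_dc, coeff_dc, ad_apply, ad_apply, ad_apply, Derivation.leibniz, smul_eq_mul, smul_eq_mul]
  ring

theorem dc_X (s : σ) : dc (ad θ) (X s : MvPolynomial σ R) = 0 := by
  classical
  ext m
  rw [coeff_dc, coeff_X, coeff_zero]
  split_ifs
  · exact Derivation.map_one_eq_zero θ
  · exact map_zero _

end der

/-! ### The derivation `Del` -/

variable {ι : Type} {n : ℕ}

theorem Del_inl (x : Aff ι n S) (p : ι × Fin n) : Del x (X (Sum.inl p)) =
    ∑ c, C ((x p.1).1 p.2 c) * X (Sum.inl (p.1, c)) := by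
  rw [Del, mkDerivation_X]
  rfl

theorem Del_inr (x : Aff ι n S) (p : ι × Fin n) : Del x (X (Sum.inr p)) =
    ∑ c, C ((x p.1).1 p.2 c) * X (Sum.inr (p.1, c)) + C ((x p.1).2 p.2) := by
  rw [Del, mkDerivation_X]
  rfl

theorem Del_C (x : Aff ι n S) (a : S) : Del x (C a) = 0 := by
  rw [MvPolynomial.derivation_C]

theorem Del_mul (x : Aff ι n S) (P Q : MvPolynomial (Vr ι n) S) :
    Del x (P * Q) = Del x P * Q + P * Del x Q := by
  rw [Derivation.leibniz, smul_eq_mul, smul_eq_mul]
  ring

/-- change of rings -/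
theorem Del_map (f : S →+* R) (x : Aff ι n S) (P : MvPolynomial (Vr ι n) S) :
    Del (amap f x) (map f P) = map f (Del x P) := by
  induction P using MvPolynomial.induction_on with
  | C a => rw [map_C, Del_C, Del_C, map_zero]
  | add P Q hP hQ => rw [map_add, map_add, hP, hQ, map_add, map_add]
  | mul_X P s hP =>
    rw [map_mul, map_X, Del_mul, Del_mul, hP, map_add, map_mul, map_mul, map_X]
    congr 2
    rcases s with p | p
    · rw [Del_inl, Del_inl, map_sum]
      refine Finset.sum_congr rfl fun c _ => ?_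
      rw [map_mul, map_C, map_X]
      rfl
    · rw [Del_inr, Del_inr, map_add, map_sum, map_C]
      congr 1
      refine Finset.sum_congr rfl fun c _ => ?_
      rw [map_mul, map_C, map_X]
      rfl

/-- linearity -/
theorem Del_lin {κ : Type} (s : Finset κ) (e : κ → R) (x : κ → Aff ι n R) (y : Aff ι n R)
    (hy : y = ∑ k ∈ s, e k • x k) (P : MvPolynomial (Vr ι n) R) :
    Del y P = ∑ k ∈ s, C (e k) * Del (x k) P := by
  have h1 : ∀ i a c, (y i).1 a c = ∑ k ∈ s, e k * (x k i).1 a c := by
    intro i a c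
    rw [hy, Finset.sum_apply, Prod.fst_sum, Matrix.sum_apply]
    rfl
  have h2 : ∀ i a, (y i).2 a = ∑ k ∈ s, e k * (x k i).2 a := by
    intro i a
    rw [hy, Finset.sum_apply, Prod.snd_sum, Finset.sum_apply]
    rfl
  induction P using MvPolynomial.induction_on with
  | C a => simp
  | add P Q hP hQ =>
    rw [map_add, hP, hQ, ← Finset.sum_add_distrib]
    refine Finset.sum_congr rfl fun k _ => ?_
    rw [map_add, mul_add]
  | mul_X P v hP =>
    rw [Del_mul, hP]
    have h3 : ∀ k, C (e k) * Del (x k) (P * X v) = C (e k) * Del (x k) P * X v +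
        P * (C (e k) * Del (x k) (X v)) := by
      intro k
      rw [Del_mul]
      ring
    rw [Finset.sum_congr rfl fun k _ => h3 k, Finset.sum_add_distrib, ← Finset.sum_mul,
      ← Finset.mul_sum]
    congr 2
    rcases v with p | p
    · simp only [Del_inl, h1, map_sum, map_mul, Finset.mul_sum, Finset.sum_mul]
      rw [Finset.sum_comm]
      refine Finset.sum_congr rfl fun k _ => Finset.sum_congr rfl fun c _ => ?_
      ring
    · simp only [Del_inr, h1, h2, map_sum, map_mul, mul_add, Finset.mul_sum, Finset.sum_mul,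
        Finset.sum_add_distrib]
      congr 1
      rw [Finset.sum_comm]
      refine Finset.sum_congr rfl fun k _ => Finset.sum_congr rfl fun c _ => ?_
      ring

/-! ### The substitution -/

/-- the substitution `X ↦ Φ X`, `Y ↦ Φ Y + b` -/
def Sub (Φ : ι → Matrix (Fin n) (Fin n) R) (b : ι → Fin n → R) :
    MvPolynomial (Vr ι n) R →ₐ[R] MvPolynomial (Vr ι n) R :=
  aeval (Sum.elim (fun p => ∑ c, C (Φ p.1 p.2 c) * X (Sum.inl (p.1, c)))
    (fun p => ∑ c, C (Φ p.1 p.2 c) * X (Sum.inr (p.1, c)) + C (b p.1 p.2)))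

theorem Sub_inl (Φ : ι → Matrix (Fin n) (Fin n) R) (b : ι → Fin n → R) (p : ι × Fin n) :
    Sub Φ b (X (Sum.inl p)) = ∑ c, C (Φ p.1 p.2 c) * X (Sum.inl (p.1, c)) := by
  rw [Sub, aeval_X]
  rfl

theorem Sub_inr (Φ : ι → Matrix (Fin n) (Fin n) R) (b : ι → Fin n → R) (p : ι × Fin n) :
    Sub Φ b (X (Sum.inr p)) = ∑ c, C (Φ p.1 p.2 c) * X (Sum.inr (p.1, c)) + C (b p.1 p.2) := by
  rw [Sub, aeval_X]
  rfl

theorem Sub_C (Φ : ι → Matrix (Fin n) (Fin n) R) (b : ι → Fin n → R) (a : R) :
    Sub Φ b (C a) = C a := by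
  rw [← algebraMap_eq]
  exact (Sub Φ b).commutes a

theorem Sub_inj {Φ Ψ : ι → Matrix (Fin n) (Fin n) R} (b : ι → Fin n → R)
    (h : ∀ i, Φ i * Ψ i = 1) : Function.Injective (Sub Φ b) := by
  have h1 : ∀ i a d, ∑ c, Φ i a c * Ψ i c d = if a = d then 1 else 0 := by
    intro i a d
    rw [← Matrix.mul_apply, h i, Matrix.one_apply]
  have h2 : ((Sub Ψ (fun i => -(Ψ i).mulVec (b i))).comp (Sub Φ b)) = AlgHom.id R _ := by
    apply MvPolynomial.algHom_ext
    rintro (⟨i, a⟩ | ⟨i, a⟩)
    · rw [AlgHom.comp_apply, Sub_inl, map_sum, AlgHom.id_apply]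
      have h3 : ∀ c, Sub Ψ (fun i => -(Ψ i).mulVec (b i)) (C (Φ i a c) * X (Sum.inl (i, c))) =
          ∑ d, C (Φ i a c * Ψ i c d) * X (Sum.inl (i, d)) := by
        intro c
        rw [map_mul, Sub_C, Sub_inl, Finset.mul_sum]
        refine Finset.sum_congr rfl fun d _ => ?_
        rw [C_mul, mul_assoc]
      rw [Finset.sum_congr rfl fun c _ => h3 c, Finset.sum_comm]
      have h4 : ∀ d, ∑ c, (C (Φ i a c * Ψ i c d) * X (Sum.inl (i, d)) : MvPolynomial (Vr ι n) R) =
          if a = d then X (Sum.inl (i, d)) else 0 := by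
        intro d
        rw [← Finset.sum_mul, ← map_sum, h1]
        split_ifs
        · rw [C_1, one_mul]
        · rw [C_0, zero_mul]
      rw [Finset.sum_congr rfl fun d _ => h4 d, Finset.sum_ite_eq, if_pos (Finset.mem_univ _)]
    · rw [AlgHom.comp_apply, Sub_inr, map_add, map_sum, AlgHom.id_apply, Sub_C]
      have h3 : ∀ c, Sub Ψ (fun i => -(Ψ i).mulVec (b i)) (C (Φ i a c) * X (Sum.inr (i, c))) =
          ∑ d, (C (Φ i a c * Ψ i c d) * X (Sum.inr (i, d)) - C (Φ i a c * Ψ i c d * b i d)) := by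
        intro c
        rw [map_mul, Sub_C, Sub_inr, Finset.sum_sub_distrib, mul_add, Finset.mul_sum]
        have h5 : (C (Φ i a c) * C ((-(Ψ i).mulVec (b i)) c) : MvPolynomial (Vr ι n) R) =
            -∑ d, C (Φ i a c * Ψ i c d * b i d) := by
          rw [← C_mul, ← map_sum, ← C_neg, Pi.neg_apply, Matrix.mulVec, dotProduct, mul_neg,
            Finset.mul_sum]
          congr 2
          refine Finset.sum_congr rfl fun d _ => ?_
          ring
        rw [h5, sub_eq_add_neg]
        congr 1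
        refine Finset.sum_congr rfl fun d _ => ?_
        rw [C_mul, mul_assoc]
      rw [Finset.sum_congr rfl fun c _ => h3 c, Finset.sum_comm]
      have h4 : ∀ d, ∑ c, (C (Φ i a c * Ψ i c d) * X (Sum.inr (i, d)) -
          C (Φ i a c * Ψ i c d * b i d) : MvPolynomial (Vr ι n) R) =
          if a = d then X (Sum.inr (i, d)) - C (b i d) else 0 := by
        intro d
        rw [Finset.sum_sub_distrib, ← Finset.sum_mul, ← map_sum, ← map_sum, ← Finset.sum_mul, h1]
        split_ifs
        · rw [C_1, one_mul, one_mul]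
        · rw [C_0, zero_mul, zero_mul, C_0, sub_zero]
      rw [Finset.sum_congr rfl fun d _ => h4 d, Finset.sum_ite_eq, if_pos (Finset.mem_univ _)]
      ring
  intro P Q hPQ
  have h3 := congrArg (Sub Ψ (fun i => -(Ψ i).mulVec (b i))) hPQ
  rw [← AlgHom.comp_apply, ← AlgHom.comp_apply, h2, AlgHom.id_apply, AlgHom.id_apply] at h3
  exact h3

/-- the substitution and the derivation of the coefficients -/
theorem Sub_der [Algebra ℂ R] (θ : Derivation ℂ R R) (Φ M : ι → Matrix (Fin n) (Fin n) R)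
    (b v : ι → Fin n → R) (h1 : ∀ i, (Φ i).map θ = M i * Φ i)
    (h2 : ∀ i, θ ∘ (b i) = (M i).mulVec (b i) + v i) (P : MvPolynomial (Vr ι n) R) :
    dc (ad θ) (Sub Φ b P) = Sub Φ b (dc (ad θ) P + Del (fun i => (M i, v i)) P) := by
  have h1' : ∀ i a c, θ (Φ i a c) = ∑ d, M i a d * Φ i d c := by
    intro i a c
    rw [← Matrix.mul_apply, ← h1 i]
    rfl
  have h2' : ∀ i a, θ (b i a) = ∑ d, M i a d * b i d + v i a := fun i a => congrFun (h2 i) a
  induction P using MvPolynomial.induction_on with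
  | C a => rw [Sub_C, dc_C, Del_C, add_zero, Sub_C]
  | add P Q hP hQ =>
    rw [map_add, dc_add, hP, hQ, dc_add, map_add (Del _), ← map_add]
    congr 1
    ring
  | mul_X P s hP =>
    have h3 : dc (ad θ) (Sub Φ b (X s)) = Sub Φ b (Del (fun i => (M i, v i)) (X s)) := by
      rcases s with ⟨i, a⟩ | ⟨i, a⟩
      · rw [Sub_inl, Del_inl, dc_sum, map_sum]
        have h4 : ∀ c, dc (ad θ) (C (Φ i a c) * X (Sum.inl (i, c)) : MvPolynomial (Vr ι n) R) =
            ∑ d, C (M i a d) * (C (Φ i d c) * X (Sum.inl (i, c))) := by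
          intro c
          rw [dc_mul, dc_X, mul_zero, add_zero, dc_C, ad_apply, h1', map_sum, Finset.sum_mul]
          refine Finset.sum_congr rfl fun d _ => ?_
          rw [C_mul, mul_assoc]
        rw [Finset.sum_congr rfl fun c _ => h4 c, Finset.sum_comm]
        refine Finset.sum_congr rfl fun d _ => ?_
        rw [map_mul, Sub_C, Sub_inl, Finset.mul_sum]
      · rw [Sub_inr, Del_inr, dc_add, dc_sum, map_add, map_sum, Sub_C, dc_C, ad_apply, h2']
        have h4 : ∀ c, dc (ad θ) (C (Φ i a c) * X (Sum.inr (i, c)) : MvPolynomial (Vr ι n) R) =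
            ∑ d, C (M i a d) * (C (Φ i d c) * X (Sum.inr (i, c))) := by
          intro c
          rw [dc_mul, dc_X, mul_zero, add_zero, dc_C, ad_apply, h1', map_sum, Finset.sum_mul]
          refine Finset.sum_congr rfl fun d _ => ?_
          rw [C_mul, mul_assoc]
        rw [Finset.sum_congr rfl fun c _ => h4 c, Finset.sum_comm, C_add, ← add_assoc, map_sum,
          ← Finset.sum_add_distrib]
        congr 1
        refine Finset.sum_congr rfl fun d _ => ?_
        have h5 : Sub Φ b (C (M i a d) * X (Sum.inr (i, d))) =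
            ∑ c, C (M i a d) * (C (Φ i d c) * X (Sum.inr (i, c))) + C (M i a d * b i d) := by
          rw [map_mul, Sub_C, Sub_inr, mul_add, Finset.mul_sum, C_mul]
        exact h5.symm
    rw [map_mul, dc_mul, hP, h3, dc_mul, dc_X, Del_mul, ← map_mul, ← map_mul, ← map_add]
    congr 1
    ring

/-! ### The extended ideal -/

section ext

variable {F : Type} [Field F] [Algebra F R]

theorem dc_map_one (l : R →ₗ[F] F) (P : MvPolynomial σ F) :
    dc (l.toAddMonoidHom) (map (algebraMap F R) P) = C (l 1) * P := by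
  ext m
  rw [coeff_dc, coeff_map, coeff_C_mul]
  show l (algebraMap F R (coeff m P)) = _
  rw [Algebra.algebraMap_eq_smul_one, map_smul, smul_eq_mul, mul_comm]

theorem mul_dc (p : Ideal (MvPolynomial σ F)) (Q' : MvPolynomial σ R) :
    ∀ Q : MvPolynomial σ R, (∀ l : R →ₗ[F] F, dc l.toAddMonoidHom Q ∈ p) →
      ∀ l : R →ₗ[F] F, dc l.toAddMonoidHom (Q' * Q) ∈ p := by
  induction Q' using MvPolynomial.induction_on with
  | C a =>
    intro Q hQ l
    rw [dc_C_mul]
    exact hQ (l.comp (LinearMap.mulLeft F a))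
  | add P P' hP hP' =>
    intro Q hQ l
    rw [add_mul, dc_add]
    exact p.add_mem (hP Q hQ l) (hP' Q hQ l)
  | mul_X P s hP =>
    intro Q hQ l
    rw [mul_comm P, mul_assoc, dc_X_mul]
    exact p.mul_mem_left _ (hP Q hQ l)

/-- functionals map the extended ideal to the ideal -/
theorem dc_mem (p : Ideal (MvPolynomial σ F)) {Q : MvPolynomial σ R}
    (hQ : Q ∈ p.map (map (algebraMap F R))) (l : R →ₗ[F] F) : dc l.toAddMonoidHom Q ∈ p := by
  revert l
  refine Submodule.span_induction (p := fun Q _ => ∀ l : R →ₗ[F] F, dc l.toAddMonoidHom Q ∈ p)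
    ?_ ?_ ?_ ?_ hQ
  · rintro _ ⟨P, hP, rfl⟩ l
    rw [dc_map_one]
    exact p.mul_mem_left _ hP
  · intro l
    rw [dc_zero]
    exact p.zero_mem
  · intro P P' _ _ hP hP' l
    rw [dc_add]
    exact p.add_mem (hP l) (hP' l)
  · intro Q' Q _ hQ l
    rw [smul_eq_mul]
    exact mul_dc p Q' Q hQ l

/-- the extended ideal is stable under the connection -/
theorem ext_stable [Algebra ℂ R] [Algebra ℂ F] (θF : Derivation ℂ F F) (θ : Derivation ℂ R R)
    (hθ : ∀ a, θ (algebraMap F R a) = algebraMap F R (θF a))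
    (p : Ideal (MvPolynomial (Vr ι n) F)) (x : Aff ι n F)
    (hp : ∀ P ∈ p, ∀ Q, IsCoef θF P Q → Q + Del x P ∈ p) {Q : MvPolynomial (Vr ι n) R}
    (hQ : Q ∈ p.map (map (algebraMap F R))) :
    dc (ad θ) Q + Del (amap (algebraMap F R) x) Q ∈ p.map (map (algebraMap F R)) := by
  refine Submodule.span_induction
    (p := fun Q _ => dc (ad θ) Q + Del (amap (algebraMap F R) x) Q ∈ p.map (map (algebraMap F R)))
    ?_ ?_ ?_ ?_ hQ
  · rintro _ ⟨P, hP, rfl⟩
    have h1 : dc (ad θ) (map (algebraMap F R) P) = map (algebraMap F R) (dc (ad θF) P) := by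
      ext m
      rw [coeff_dc, coeff_map, coeff_map, coeff_dc, ad_apply, ad_apply, hθ]
    have h2 := Del_map (algebraMap F R) x P
    rw [h1, h2, ← map_add]
    exact Ideal.mem_map_of_mem _ (hp P hP _ fun m => coeff_dc _ _ _)
  · rw [dc_zero, map_zero, add_zero]
    exact Ideal.zero_mem _
  · intro P P' _ _ hP hP'
    have h1 := Ideal.add_mem _ hP hP'
    rw [dc_add, map_add]
    convert h1 using 1
    ring
  · intro Q' Q hQ hQ2
    rw [smul_eq_mul, dc_mul, Del_mul]
    have h1 := Ideal.mul_mem_left _ Q' hQ2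
    have h2 := Ideal.mul_mem_left _ (dc (ad θ) Q' + Del (amap (algebraMap F R) x) Q') hQ
    convert Ideal.add_mem _ h1 h2 using 1
    ring

end ext

/-- **KT**: the Lie algebra of a stable ideal. -/
theorem t_KT : S_KT := by
  intro hstar ι _ _ n F R _ _ _ _ _ _ _ θF θ δ hθ hθs hδ p A g hp Φ Ψ b hΦΨ hΦ hb
  classical
  set P' : Ideal (MvPolynomial (Vr ι n) R) := p.map (map (algebraMap F R)) with hP'
  have hΨΦ : ∀ i, Ψ i * Φ i = 1 := fun i => mul_eq_one_comm.1 (hΦΨ i)
  set x : Aff ι n R := fun i => ((Φ i).map δ * Ψ i, δ ∘ (b i) - ((Φ i).map δ * Ψ i).mulVec (b i))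
    with hx
  -- the submodule
  let W : Submodule R ((Vr ι n →₀ ℕ) →₀ R) := (P'.restrictScalars R).map
    ((basisMonomials (Vr ι n) R).repr.toLinearMap ∘ₗ (Sub Φ b).toLinearMap)
  have hmemW : ∀ Q : MvPolynomial (Vr ι n) R, Q ∈ P' →
      (basisMonomials (Vr ι n) R).repr (Sub Φ b Q) ∈ W := fun Q hQ => ⟨Q, hQ, rfl⟩
  have hW : ∀ w ∈ W, w.mapRange θ (map_zero θ) ∈ W := by
    rintro _ ⟨Q, hQ, rfl⟩
    have h1 := hmemW _ (ext_stable θF θ hθ p (fun i => (A i, g i)) hp hQ)
    have h2 := Sub_der θ Φ (fun i => (A i).map (algebraMap F R)) b (fun i => algebraMap F R ∘ g i)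
      hΦ hb Q
    have h3 : (fun i => ((A i).map (algebraMap F R), algebraMap F R ∘ g i) : Aff ι n R) =
      amap (algebraMap F R) (fun i => (A i, g i)) := rfl
    rw [h3] at h2
    rw [← h2, repr_dc] at h1
    exact h1
  have hWδ : ∀ w ∈ W, w.mapRange δ (map_zero δ) ∈ W := by
    intro w hw
    refine (Submodule.span_induction (p := fun w _ => w ∈ W ∧ w.mapRange δ (map_zero δ) ∈ W)
      ?_ ?_ ?_ ?_ (hstar R θ hθs _ W hW w hw)).2
    · rintro u ⟨hu, hu2⟩
      refine ⟨hu, ?_⟩
      have h1 : u.mapRange δ (map_zero δ) = 0 := by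
        ext k
        obtain ⟨c, hc⟩ := hu2 k
        rw [Finsupp.mapRange_apply, hc, Derivation.map_algebraMap, Finsupp.zero_apply]
      rw [h1]
      exact W.zero_mem
    · exact ⟨W.zero_mem, by rw [Finsupp.mapRange_zero]; exact W.zero_mem⟩
    · rintro u v _ _ ⟨hu, hu2⟩ ⟨hv, hv2⟩
      refine ⟨W.add_mem hu hv, ?_⟩
      rw [Finsupp.mapRange_add fun a b => map_add δ a b]
      exact W.add_mem hu2 hv2
    · rintro r u _ ⟨hu, hu2⟩
      refine ⟨W.smul_mem r hu, ?_⟩
      have h1 : (r • u).mapRange δ (map_zero δ) = δ r • u + r • u.mapRange δ (map_zero δ) := by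
        ext k
        simp only [Finsupp.mapRange_apply, Finsupp.smul_apply, Finsupp.add_apply, smul_eq_mul,
          Derivation.leibniz]
        ring
      rw [h1]
      exact W.add_mem (W.smul_mem _ hu) (W.smul_mem _ hu2)
  -- the derivation `x` on the ideal
  have hxP : ∀ P ∈ p, Del x (map (algebraMap F R) P) ∈ P' := by
    intro P hP
    have hM : ∀ i, (Φ i).map δ = ((Φ i).map δ * Ψ i) * Φ i := by
      intro i
      rw [Matrix.mul_assoc, hΨΦ, Matrix.mul_one]
    have h1 := Sub_der δ Φ (fun i => (Φ i).map δ * Ψ i) b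
      (fun i => δ ∘ (b i) - ((Φ i).map δ * Ψ i).mulVec (b i)) hM (fun i => by abel)
      (map (algebraMap F R) P)
    have h2 : dc (ad δ) (map (algebraMap F R) P) = 0 := by
      ext m
      rw [coeff_dc, coeff_map, ad_apply, hδ, coeff_zero]
    rw [h2, zero_add] at h1
    have h3 := hWδ _ (hmemW _ (Ideal.mem_map_of_mem (map (algebraMap F R)) hP))
    have h4 := repr_dc (ad δ) (Sub Φ b (map (algebraMap F R) P))
    rw [h1] at h4
    have h5 : (basisMonomials (Vr ι n) R).repr (Sub Φ b (Del x (map (algebraMap F R) P))) ∈ W := by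
      rw [hx, h4]
      exact h3
    obtain ⟨Q, hQ, hQ2⟩ := h5
    have h6 : Sub Φ b Q = Sub Φ b (Del x (map (algebraMap F R) P)) :=
      (basisMonomials (Vr ι n) R).repr.injective hQ2
    rw [← Sub_inj b hΦΨ h6]
    exact hQ
  -- descent
  let B := Module.Free.chooseBasis F R
  let s : Finset (Module.Free.ChooseBasisIndex F R) :=
    (Finset.univ : Finset (ι × Fin n × Fin n)).biUnion
      (fun q => (B.repr ((x q.1).1 q.2.1 q.2.2)).support) ∪
    (Finset.univ : Finset (ι × Fin n)).biUnion (fun q => (B.repr ((x q.1).2 q.2)).support)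
  have hs : ∀ r : R, (B.repr r).support ⊆ s → r = ∑ k ∈ s, B k * algebraMap F R (B.repr r k) := by
    intro r hr
    conv_lhs => rw [← B.linearCombination_repr r]
    rw [Finsupp.linearCombination_apply, Finsupp.sum_of_support_subset _ hr _ (by simp)]
    refine Finset.sum_congr rfl fun k _ => ?_
    rw [Algebra.smul_def, mul_comm]
  let y : Module.Free.ChooseBasisIndex F R → Aff ι n F := fun k => amap (fun r => B.repr r k) x
  have hxy : x = ∑ k ∈ s, B k • amap (algebraMap F R) (y k) := by
    funext i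
    rw [Finset.sum_apply]
    refine Prod.ext ?_ ?_
    · ext a c
      rw [Prod.fst_sum, Matrix.sum_apply]
      refine hs _ ?_
      refine Finset.subset_union_left.trans' ?_
      exact Finset.subset_biUnion_of_mem
        (fun q : ι × Fin n × Fin n => (B.repr ((x q.1).1 q.2.1 q.2.2)).support)
        (Finset.mem_univ (i, a, c))
    · ext a
      rw [Prod.snd_sum, Finset.sum_apply]
      refine hs _ ?_
      refine Finset.subset_union_right.trans' ?_
      exact Finset.subset_biUnion_of_mem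
        (fun q : ι × Fin n => (B.repr ((x q.1).2 q.2)).support) (Finset.mem_univ (i, a))
  have hy : ∀ k ∈ s, ∀ P ∈ p, Del (y k) P ∈ p := by
    intro k hk P hP
    have h1 := dc_mem p (hxP P hP) (B.coord k)
    rw [Del_lin s (fun k => B k) (fun k => amap (algebraMap F R) (y k)) x hxy, dc_sum] at h1
    have h2 : ∀ k', dc (B.coord k).toAddMonoidHom
        (C (B k') * Del (amap (algebraMap F R) (y k')) (map (algebraMap F R) P)) =
        if k' = k then Del (y k') P else 0 := by
      intro k'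
      rw [dc_C_mul, Del_map (algebraMap F R)]
      have h3 := dc_map_one ((B.coord k).comp (LinearMap.mulLeft F (B k'))) (Del (y k') P)
      have h4 : ((B.coord k).comp (LinearMap.mulLeft F (B k'))) 1 = if k' = k then 1 else 0 := by
        rw [LinearMap.comp_apply, LinearMap.mulLeft_apply, mul_one, Module.Basis.coord_apply,
          Module.Basis.repr_self, Finsupp.single_apply]
      rw [h4] at h3
      refine Eq.trans h3 ?_
      split_ifs
      · rw [C_1, one_mul]
      · rw [C_0, zero_mul]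
    rw [Finset.sum_congr rfl fun k' _ => h2 k', Finset.sum_ite_eq', if_pos hk] at h1
    exact h1
  rw [hxy]
  exact Submodule.sum_mem _ fun k hk => Submodule.smul_mem _ _
    (Submodule.subset_span ⟨y k, hy k hk, rfl⟩)

end

end Pool.Agent.E8helper56.AZ
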