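import Pool.Agent.E8helper42.AZ.Stm

set_option autoImplicit false

/-!
# Project AZ, part STAR: stable submodules are generated by constants
-/

namespace Pool.Agent.E8helper56.AZ

open Pool.Agent.E8helper42.AZ

theorem t_STAR : S_STAR := by
  intro R _ _ _ θ hθ κ W hW
  classical
  have key : ∀ N : ℕ, ∀ w ∈ W, w.support.card = N →
      w ∈ Submodule.span R {u : κ →₀ R | u ∈ W ∧ ∀ k, ∃ c : ℂ, u k = algebraMap ℂ R c} := by
    intro N
    induction N using Nat.strong_induction_on with
    | _ N ih =>
    intro w hw hN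
    by_cases hw0 : w = 0
    · rw [hw0]
      exact Submodule.zero_mem _
    -- a nonzero element of minimal support
    let s : Set ℕ := {k | ∃ u ∈ W, u ≠ 0 ∧ u.support ⊆ w.support ∧ u.support.card = k}
    have hs : s.Nonempty := ⟨_, w, hw, hw0, subset_rfl, rfl⟩
    obtain ⟨w1, hw1, hw10, hw1s, hw1c⟩ := Nat.sInf_mem hs
    have hmin : ∀ u ∈ W, u.support ⊆ w.support → u.support.card < w1.support.card → u = 0 := by
      intro u hu hus huc
      by_contra h0
      have h1 : u.support.card ∈ s := ⟨u, hu, h0, hus, rfl⟩
      have h2 := Nat.sInf_le h1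
      omega
    obtain ⟨i, hi⟩ : w1.support.Nonempty := Finsupp.support_nonempty_iff.2 hw10
    let I : Ideal R :=
      { carrier := {a | ∃ u ∈ W, u.support ⊆ w1.support ∧ u i = a}
        zero_mem' := ⟨0, W.zero_mem, by simp, rfl⟩
        add_mem' := by
          rintro a b ⟨u, hu, hu1, rfl⟩ ⟨v, hv, hv1, rfl⟩
          exact ⟨u + v, W.add_mem hu hv, Finsupp.support_add.trans (Finset.union_subset hu1 hv1), rfl⟩
        smul_mem' := by
          rintro c a ⟨u, hu, hu1, rfl⟩
          exact ⟨c • u, W.smul_mem c hu, Finsupp.support_smul.trans hu1, rfl⟩ }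
    have hI0 : I ≠ ⊥ := by
      intro h
      have h1 : w1 i ∈ I := ⟨w1, hw1, subset_rfl, rfl⟩
      rw [h] at h1
      exact Finsupp.mem_support_iff.1 hi h1
    have hIθ : ∀ a ∈ I, θ a ∈ I := by
      rintro a ⟨u, hu, hu1, rfl⟩
      refine ⟨_, hW u hu, Finsupp.support_mapRange.trans hu1, ?_⟩
      rw [Finsupp.mapRange_apply]
    have hI := hθ.simple I hI0 hIθ
    obtain ⟨u, hu, hu1, hui⟩ : (1 : R) ∈ I := by rw [hI]; trivial
    have hui' : i ∈ u.support := Finsupp.mem_support_iff.2 (by rw [hui]; exact one_ne_zero)
    have hus : u.support ⊆ w.support := hu1.trans hw1s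
    have hθu : u.mapRange θ (map_zero θ) = 0 := by
      refine hmin _ (hW u hu) (Finsupp.support_mapRange.trans hus) ?_
      have h1 : (u.mapRange θ (map_zero θ)).support ⊆ w1.support.erase i := by
        intro k hk
        refine Finset.mem_erase.2 ⟨?_, hu1 (Finsupp.support_mapRange hk)⟩
        rintro rfl
        rw [Finsupp.mem_support_iff, Finsupp.mapRange_apply, hui, Derivation.map_one_eq_zero] at hk
        exact hk rfl
      exact (Finset.card_le_card h1).trans_lt (Finset.card_erase_lt_of_mem hi)
    have hconst : ∀ k, ∃ c : ℂ, u k = algebraMap ℂ R c := by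
      intro k
      apply hθ.const
      have h1 := DFunLike.congr_fun hθu k
      rwa [Finsupp.mapRange_apply, Finsupp.zero_apply] at h1
    have h1 : w = (w - w i • u) + w i • u := by abel
    rw [h1]
    refine Submodule.add_mem _ ?_ (Submodule.smul_mem _ _ (Submodule.subset_span ⟨hu, hconst⟩))
    refine ih _ ?_ _ (W.sub_mem hw (W.smul_mem _ hu)) rfl
    rw [← hN]
    have h2 : (w - w i • u).support ⊆ w.support.erase i := by
      intro k hk
      rw [Finset.mem_erase]
      constructor
      · rintro rfl
        rw [Finsupp.mem_support_iff, Finsupp.sub_apply, Finsupp.smul_apply, hui, smul_eq_mul,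
          mul_one, sub_self] at hk
        exact hk rfl
      · by_contra h3
        rw [Finsupp.mem_support_iff] at hk
        have h4 : w k = 0 := Finsupp.notMem_support_iff.1 h3
        have h5 : u k = 0 := Finsupp.notMem_support_iff.1 fun h => h3 (hus h)
        rw [Finsupp.sub_apply, Finsupp.smul_apply, h4, h5, smul_zero, sub_zero] at hk
        exact hk rfl
    exact (Finset.card_le_card h2).trans_lt (Finset.card_erase_lt_of_mem (hus hui'))
  exact fun w hw => key _ w hw rfl

end Pool.Agent.E8helper56.AZ
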